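import Pool.Agent.H510Z.Schunck.Main

set_option autoImplicit false

namespace Pool.Agent.Results.MP_d8b6f8_al.AJoinFails

open Pool.Agent.H510Z.Schunck

/-- Q2 has a negative answer: there are Schunck classes `X`, `Y` with `X² = X`, `Y² = Y` whose join
`Z = X ∨ Y` in the lattice `L` does not satisfy `Z² = Z`. So the Schunck classes with `X² = X` do
not form a sublattice of `L`. -/
theorem result : ∃ X Y : GroupClass, IsSchunck X ∧ IsSchunck Y ∧ IsIdem X ∧ IsIdem Y ∧
    ¬ IsIdem (join X Y) :=
  main

end Pool.Agent.Results.MP_d8b6f8_al.AJoinFails
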